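import Pool.Agent.MSS.FXC

/-!
# MP_d6353f_al: fixed points of finite solvable groups on metrically systolic complexes of dimension
at most three
-/

open Pool.Agent.MSF Pool.Agent.MSN

universe u v

namespace Pool.Agent.Results.MP_d6353f_al.SolvableGroups

/-- The number of simplices with `j` vertices. -/
noncomputable def numSimplices {V : Type u} (G : SimpleGraph V) (j : ℕ) : ℕ :=
  Nat.card {s : Finset V // G.IsClique (s : Set V) ∧ s.card = j}

/-- The barycenter of an invariant clique. -/
theorem point_of_clique {V : Type u} {G : SimpleGraph V} {H : Type v} [Group H] [MulAction H V]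
    {s : Finset V} (hs : s.Nonempty) (hc : G.IsClique (s : Set V))
    (hinv : ∀ (h : H), ∀ x ∈ s, h • x ∈ s) :
    ∃ φ : V →₀ ℝ, IsPoint G φ ∧ ∀ (h : H) (v : V), φ (h • v) = φ v := by
  classical
  have hpos : (0 : ℝ) < s.card := by exact_mod_cast hs.card_pos
  let φ : V →₀ ℝ := Finsupp.indicator s (fun _ _ => (s.card : ℝ)⁻¹)
  have hφ : ∀ v, φ v = if v ∈ s then (s.card : ℝ)⁻¹ else 0 := by
    intro v
    simp only [φ, Finsupp.indicator_apply]
    split_ifs <;> rfl
  have hmem : ∀ (h : H) (v : V), h • v ∈ s ↔ v ∈ s := by
    intro h v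
    constructor
    · intro hv
      have := hinv h⁻¹ _ hv
      rwa [inv_smul_smul] at this
    · exact hinv h v
  refine ⟨φ, ⟨?_, ?_, ?_⟩, ?_⟩
  · intro v
    rw [hφ]
    split_ifs
    · positivity
    · exact le_rfl
  · have hsup : φ.support ⊆ s := by
      intro v hv
      rw [Finsupp.mem_support_iff, hφ] at hv
      by_contra hcon
      exact hv (if_neg hcon)
    rw [Finsupp.sum_of_support_subset φ hsup _ (by simp)]
    rw [Finset.sum_congr rfl (fun v hv => by rw [hφ, if_pos hv])]
    rw [Finset.sum_const, nsmul_eq_mul]
    field_simp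
  · intro a b ha hb hab
    rw [hφ] at ha hb
    have ha' : a ∈ s := by
      by_contra hcon
      exact ha (if_neg hcon)
    have hb' : b ∈ s := by
      by_contra hcon
      exact hb (if_neg hcon)
    exact hc ha' hb' hab
  · intro h v
    rw [hφ, hφ]
    simp only [hmem]

/-- Let `X` (the flag complex of `G` with edge lengths `len`) be a metrically systolic complex of
dimension at most three. Assume that

* all angles of the triangles of `X` are at most `π / 2`, or
* `X` is finite and its Euler characteristic is `1` (for instance `X` is finite and contractible).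

Let a finite solvable group `H` act on `X` by isometric simplicial automorphisms. Then `H` fixes a
point of the geometric realisation of `X`. Moreover, for every subgroup `K` of `H` moving no vertex
to an adjacent vertex, the full subcomplex on the `K`-fixed vertices is again metrically systolic
(in particular nonempty, connected and simply connected). -/
theorem result {V : Type u} (G : SimpleGraph V) (len : V → V → ℝ)
    (hX : MetricallySystolic G len) (h5 : G.CliqueFree 5)
    (hN : (∀ v a b, G.Adj v a → G.Adj v b → G.Adj a b → angle len v a b ≤ Real.pi / 2) ∨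
      (Finite V ∧ (numSimplices G 1 : ℤ) - numSimplices G 2 + numSimplices G 3 -
        numSimplices G 4 = 1))
    (H : Type v) [Group H] [Finite H] [MulAction H V]
    (hadj : ∀ (h : H) (a b : V), G.Adj (h • a) (h • b) ↔ G.Adj a b)
    (hlen : ∀ (h : H) (a b : V), G.Adj a b → len (h • a) (h • b) = len a b)
    (hsol : Group.IsSolvable H) :
    (∃ φ : V →₀ ℝ, IsPoint G φ ∧ ∀ (h : H) (v : V), φ (h • v) = φ v) ∧
    ∀ K : Subgroup H, (∀ k ∈ K, ∀ v : V, ¬ G.Adj v (k • v)) →
      MetricallySystolic (G.induce {v : V | ∀ k ∈ K, k • v = v}) (fun a b => len a b) := by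
  -- transport to a group in `Type`
  obtain ⟨H', iG, iF, ⟨e⟩⟩ := Finite.exists_type_univ_nonempty_mulEquiv.{v, 0} H
  let f : H' ≃* H := e.symm
  let _ : MulAction H' V := MulAction.compHom V f.toMonoidHom
  have hsm : ∀ (x : H') (v : V), x • v = f x • v := fun _ _ => rfl
  have hadj' : ∀ (h : H') (a b : V), G.Adj (h • a) (h • b) ↔ G.Adj a b :=
    fun h a b => hadj (f h) a b
  have hlen' : ∀ (h : H') (a b : V), G.Adj a b → len (h • a) (h • b) = len a b :=
    fun h a b hab => hlen (f h) a b hab
  have hsol' : Group.IsSolvable H' :=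
    Group.isSolvable_of_isSolvable_injective (f := f.toMonoidHom) f.injective
  constructor
  · obtain ⟨s, hs, hc, hinv⟩ : ∃ s : Finset V, s.Nonempty ∧ G.IsClique s ∧
        ∀ (h : H'), ∀ x ∈ s, h • x ∈ s := by
      rcases hN with hN | ⟨hV, he⟩
      · exact Pool.Agent.MSS.Asm.smain G len hX hN h5 H' hadj' hlen' hsol'
      · exact Pool.Agent.MSS.FXC.clique hX h5 he H' hadj' hlen' hsol'
    refine point_of_clique hs hc (fun h x hx => ?_)
    have := hinv (f.symm h) x hx
    rw [hsm] at this
    simpa using this
  · intro K hmove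
    have hmemK : ∀ x : H', x ∈ K.comap f.toMonoidHom ↔ f x ∈ K := fun _ => Iff.rfl
    have hsolK : Group.IsSolvable (K.comap f.toMonoidHom) :=
      Group.isSolvable_of_isSolvable_injective (f := (K.comap f.toMonoidHom).subtype)
        (Subgroup.subtype_injective _)
    have hmove' : ∀ k ∈ K.comap f.toMonoidHom, ∀ v : V, ¬ G.Adj v (k • v) :=
      fun k hk v => hmove (f k) hk v
    have hset : {v : V | ∀ k ∈ K.comap f.toMonoidHom, k • v = v} =
        {v : V | ∀ k ∈ K, k • v = v} := by
      ext v
      constructor
      · intro h k hk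
        have := h (f.symm k) (by rw [hmemK]; simpa using hk)
        rw [hsm] at this
        simpa using this
      · intro h k hk
        exact h (f k) hk
    have hK : MetricallySystolic (G.induce {v : V | ∀ k ∈ K.comap f.toMonoidHom, k • v = v})
        (fun a b => len a b) := by
      rcases hN with hN | ⟨hV, he⟩
      · exact Pool.Agent.MSN.Asm.sol G len hX hN h5 H' hadj' hlen' _ hsolK hmove'
      · exact Pool.Agent.MSS.FXC.fixed hX h5 he H' hadj' hlen' _ hsolK hmove'
    rw [hset] at hK
    exact hK

end Pool.Agent.Results.MP_d6353f_al.SolvableGroups
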