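import Pool.Agent.MSF.Final
import Pool.Agent.MSF.PEEL
import Pool.Agent.MSF.ZIP
import Pool.Agent.MSF.GLUE
import Pool.Agent.MSF.FILL
import Pool.Agent.MSF.LARGE
import Pool.Agent.MSF.TRIG
import Pool.Agent.MSF.DISC1
import Pool.Agent.MSF.DISC2
import Pool.Agent.MSF.DISC3
import Pool.Agent.MSF.A3
import Pool.Agent.MSF.RED
import Pool.Agent.MSF.ANGZ
import Pool.Agent.MSF.DEX
import Pool.Agent.MSF.T1I
import Pool.Agent.MSF.T1
import Pool.Agent.MSF.T2I
import Pool.Agent.MSF.T2
import Pool.Agent.MSF.T3
import Pool.Agent.MSF.H2N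
import Pool.Agent.MSF.N2H
import Pool.Agent.MSF.RES

/-!
# MP_d6353f_al: finite 2-groups acting on metrically systolic complexes
-/

open Pool.Agent.MSF

universe u v

namespace Pool.Agent.Results.MP_d6353f_al.TwoGroups

theorem zip : T_ZIP.{u} := tZIP tPEEL
theorem glue : T_GLUE.{u} := tGLUE zip
theorem gen : T_GEN.{u} := tGEN zip
theorem ds : T_DS.{u} :=
  tDS (tDEX (tA3 tPEEL) tRED (tANGZ tDISC1 (tDISC3 tDISC1) tFILL glue) tDISC1) tDISC1 tDISC2
    (tDISC3 tDISC1)
theorem t1 : T_T1.{u} := tT1 (tT1I gen) ds tFILL glue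
theorem t2 : T_T2.{u} := tT2 (tT2I zip gen glue) ds tFILL glue
theorem t3 : T_T3.{u} := tT3 ds (tCONE zip) zip

/-- Let `X` (the flag complex of `G` with edge lengths `len`) be a metrically systolic complex.

(1) Let a finite 2-group `H` act on `X` by isometric simplicial automorphisms, and suppose that some
subgroup `K` of index at most 2 acts without inverting an edge. Then `H` fixes a point of the
geometric realisation of `X`, and the full subcomplex on the `K`-fixed vertices is again
metrically systolic (in particular nonempty, connected and simply connected).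

(2) Let `g` be an isometric simplicial automorphism of `X` (of finite or infinite order) which maps
no vertex to an adjacent vertex. Then the full subcomplex on the vertices fixed by `g` is empty or
metrically systolic. -/
theorem result {V : Type u} (G : SimpleGraph V) (len : V → V → ℝ)
    (hX : MetricallySystolic G len) :
    (∀ (H : Type v) [Group H] [Finite H] [MulAction H V], IsPGroup 2 H →
      (∀ (h : H) (a b : V), G.Adj (h • a) (h • b) ↔ G.Adj a b) →
      (∀ (h : H) (a b : V), G.Adj a b → len (h • a) (h • b) = len a b) →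
      ∀ K : Subgroup H, K.index ≤ 2 →
      (∀ k ∈ K, ∀ v : V, k • k • v = v → ¬ G.Adj v (k • v)) →
      (∃ φ : V →₀ ℝ, IsPoint G φ ∧ ∀ (h : H) (v : V), φ (h • v) = φ v) ∧
      MetricallySystolic (G.induce {v : V | ∀ k ∈ K, k • v = v}) (fun a b => len a b)) ∧
    (∀ g : Equiv.Perm V, (∀ a b : V, G.Adj (g a) (g b) ↔ G.Adj a b) →
      (∀ a b : V, G.Adj a b → len (g a) (g b) = len a b) →
      (∀ v, ¬ G.Adj v (g v)) → (∃ v, g v = v) →
      MetricallySystolic (G.induce {v : V | g v = v}) (fun a b => len a b)) := by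
  refine ⟨?_, ?_⟩
  · intro H _ _ _ hH hadj hlen K hK hinv
    exact main_A t1 t2 t3 tRES tMCI (tH2N zip) tN2H tIND tLARGE tTRIG G len hX hH hadj hlen K hK hinv
  · intro g hadj hlen hno hne
    exact main_B t2 t3 tMCI (tH2N zip) tN2H tIND tLARGE tTRIG G len hX g hadj hlen hno hne

end Pool.Agent.Results.MP_d6353f_al.TwoGroups
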